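import Pool.Agent.H189Z.RZProof

namespace Pool.Agent.Results.MP_eea824_ag.ACounterexample

open MvPolynomial Pool.Agent.H189Z.RZ

theorem result : ¬ ∀ (d m n : ℕ) (p : MvPolynomial (Fin 2 ⊕ Fin m) ℝ)
    (q : MvPolynomial (Fin 2 ⊕ Fin n) ℝ),
    IsRealZero p → IsRealZero q → p.totalDegree ≤ d → q.totalDegree ≤ d →
    killRight p = killRight q →
    ∃ r : MvPolynomial (Fin 2 ⊕ Fin m ⊕ Fin n) ℝ,
      IsRealZero r ∧ r.totalDegree ≤ d ∧ killZ r = p ∧ killY r = q :=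
  fun h => no_amalgam (h 3 1 1 pp qq pp_rz qq_rz pp_deg qq_deg agree)

end Pool.Agent.Results.MP_eea824_ag.ACounterexample
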